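import Pool.Agent.H23.DF.TargetsL
import Pool.Agent.H16.DM.TR

/-!
# (TR) the transport of the sum over the midpoints, friable conductors
-/

set_option autoImplicit false

open NumberField Complex
open scoped nonZeroDivisors

namespace Pool.Agent.H56.DF.TR

open Pool.Agent.H25.HK Pool.Agent.H23.LB Pool.Agent.H23.LC
open Pool.Agent.H28.RC (Rep ft idl)
open Pool.Agent.H29.TC (Gn LC cq dvs AC MC)
open Pool.Agent.H31.SX (ND RK Gcd LK)
open Pool.Agent.H81.THC (fi_mono fi_le mk_nil)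
open Pool.Agent.H23.DM (Mz cm FP PhZ PY)
open Pool.Agent.H23.DF
open Pool.Agent.H16.DM.SC (gn_k half_mem)
open Pool.Agent.H16.DM.TR (sum_rep smul_mem smul_mem' ci_per exists_u mz_mul mz_mul' mz_ne)
open Pool.Agent.H26.THC (eps eps_add eps_norm eps_of_mem smul_mem_FI)
open Pool.Agent.H26.GLA (fadd fsub)
open Pool.Agent.H97.SWX.CF (cmul cadd csub mem_inf_mul inf_eq)

/-- the values -/
lemma values {R : Type} [CommRing R] {η : R → ℂ} (hη : MC η) {X T p : R} (hT : IsNilpotent T)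
    (h : p * T = 0) :
    η (X + T + p) * (starRingEnd ℂ) (η (X + T - p)) =
      η (X + p) * (starRingEnd ℂ) (η (X - p)) := by
  have hu : ∀ a : R, IsUnit a ↔ IsUnit (a + T) := by
    intro a
    refine ⟨fun h => Pool.Agent.H29.TC.unit_add_nil h hT, fun h => ?_⟩
    have h1 := Pool.Agent.H29.TC.unit_add_nil h hT.neg
    have e : a + T + -T = a := by ring
    rwa [e] at h1
  have e1 : X + T + p = X + p + T := by ring
  have e2 : X + T - p = X - p + T := by ring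
  rw [e1, e2]
  by_cases h1 : IsUnit (X + p)
  · by_cases h2 : IsUnit (X - p)
    · have h3 := (hu _).1 h1
      have h4 := (hu _).1 h2
      have hprod : (X + p + T) * (X - p) = (X - p + T) * (X + p) := by
        linear_combination (-2) * h
      have h5 := congrArg η hprod
      rw [hη.mul, hη.mul] at h5
      have n2 : η (X - p + T) * (starRingEnd ℂ) (η (X - p + T)) = 1 := by
        rw [Complex.mul_conj, Complex.normSq_eq_norm_sq, hη.unit _ h4]
        norm_num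
      have n4 : η (X - p) * (starRingEnd ℂ) (η (X - p)) = 1 := by
        rw [Complex.mul_conj, Complex.normSq_eq_norm_sq, hη.unit _ h2]
        norm_num
      generalize η (X + p + T) = A at *
      generalize η (X - p + T) = B at *
      generalize η (X + p) = C at *
      generalize η (X - p) = D at *
      generalize (starRingEnd ℂ) B = B' at *
      generalize (starRingEnd ℂ) D = D' at *
      linear_combination (B' * D') * h5 - A * B' * n4 + C * D' * n2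
    · have h4 : ¬ IsUnit (X - p + T) := fun h4 => h2 ((hu _).2 h4)
      rw [hη.zero _ h2, hη.zero _ h4, map_zero, mul_zero, mul_zero]
  · have h3 : ¬ IsUnit (X + p + T) := fun h3 => h1 ((hu _).2 h3)
    rw [hη.zero _ h1, hη.zero _ h3, zero_mul, zero_mul]

variable {K : Type} [Field K] [NumberField K]

/-- the elements `τ u₁` represent the classes of `l r M` -/
lemma rep_u {l r k H : Ideal (𝓞 K)} {M : FI K} {x₀ u₁ : K} (hM : M ≠ 0) (hlk : l ⊔ k = ⊤)
    (hkr : k ≤ r) (hkH : k ≤ H) (hx₀ : Gn k M x₀) (hu₁ : u₁ ∈ (l : FI K) * M)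
    (hu₂ : u₁ - x₀ ∈ (k : FI K) * M) :
    (∀ a : 𝓞 K, (a : K) * u₁ ∈ ((l * H : Ideal (𝓞 K)) : FI K) * M → a ∈ H) ∧
    (∀ v ∈ ((l * r : Ideal (𝓞 K)) : FI K) * M, ∃ τ ∈ r,
      v - (τ : K) * u₁ ∈ ((l * H : Ideal (𝓞 K)) : FI K) * M) := by
  refine ⟨fun a ha => ?_, fun v hv => ?_⟩
  · rw [← hx₀.iff a _ hkH]
    have h1 := fi_mono (Ideal.mul_le_right : l * H ≤ H) M ha
    have h2 : (a : K) * (u₁ - x₀) ∈ (H : FI K) * M :=
      smul_mem_FI _ a (fi_mono hkH M hu₂)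
    have h3 := fsub K _ h1 h2
    have e : (a : K) * u₁ - (a : K) * (u₁ - x₀) = (a : K) * x₀ := by ring
    rw [e] at h3
    exact h3
  · have hvM : v ∈ M := fi_le _ M hv
    obtain ⟨τ, -, hτ⟩ := hx₀.gen v hvM
    refine ⟨τ, ?_, ?_⟩
    · rw [← hx₀.iff τ r hkr]
      have h1 := fsub K _ (fi_mono (Ideal.mul_le_right : l * r ≤ r) M hv) (fi_mono hkr M hτ)
      have e : v - (v - (τ : K) * x₀) = (τ : K) * x₀ := by ring
      rw [e] at h1
      exact h1
    · have h1 : v - (τ : K) * u₁ ∈ (k : FI K) * M := by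
        have h2 := fsub K _ hτ (smul_mem_FI _ τ hu₂)
        have e : v - (τ : K) * x₀ - (τ : K) * (u₁ - x₀) = v - (τ : K) * u₁ := by ring
        rw [e] at h2
        exact h2
      have h2 : v - (τ : K) * u₁ ∈ (l : FI K) * M :=
        fsub K _ (fi_mono (Ideal.mul_le_left : l * r ≤ l) M hv) (smul_mem_FI _ τ hu₁)
      have h3 := mem_inf_mul hM h2 h1
      have h4 : l ⊓ k = l * k :=
        (Ideal.mul_eq_inf_of_isCoprime (Ideal.isCoprime_iff_sup_eq.mpr hlk)).symm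
      rw [h4] at h3
      exact fi_mono (Ideal.mul_mono_right hkH) M h3

/-- the phases -/
lemma phase {l r k e F k' H : Ideal (𝓞 K)} {M : FI K} {x₀ u₁ δ y₂ : K} {π s s' : 𝓞 K}
    (hM : M ≠ 0) (hlk : l ⊔ k = ⊤) (hkk' : k ≤ k') (hke : k = e * k') (he0 : e ≠ ⊥)
    (hF0 : F ≠ ⊥) (hkH : k ≤ H) (hrH : r * k' ≤ H)
    (hx₀ : x₀ ∈ M) (hu₁ : u₁ ∈ (l : FI K) * M) (hu₂ : u₁ - x₀ ∈ (k : FI K) * M)
    (hy₂ : y₂ ∈ Mz K e) (hy₂' : y₂ ∈ Mz K F) (hd : ∃ m ∈ k', (π : K) * y₂ - 1 = (m : K))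
    (hδ : 2 * δ ∈ ((l * F : Ideal (𝓞 K)) : FI K) * M)
    (hδs : δ - ((s * π : 𝓞 K) : K) * x₀ ∈ (k : FI K) * M) (hss : s * s' - 1 ∈ k) {τ : 𝓞 K}
    (hτ : τ ∈ r) :
    (τ : K) * (u₁ - (s' : K) * y₂ * δ) ∈ ((l * H : Ideal (𝓞 K)) : FI K) * M := by
  obtain ⟨m, hm, hm'⟩ := hd
  have h1 : δ * y₂ - (s : K) * u₁ ∈ (l : FI K) * M :=
    fsub K _ (mz_mul' hF0 hδ hy₂') (smul_mem_FI _ s hu₁)
  have h2 : δ * y₂ - (s : K) * u₁ ∈ (k' : FI K) * M := by
    have a1 : (δ - ((s * π : 𝓞 K) : K) * x₀) * y₂ ∈ (k' : FI K) * M := by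
      refine mz_mul' he0 ?_ hy₂
      rw [mul_comm k' e, ← hke, two_mul]
      exact fadd K _ hδs hδs
    have a2 : (m : K) * ((s : K) * x₀) ∈ (k' : FI K) * M := smul_mem hm (smul_mem_FI _ s hx₀)
    have a3 : (s : K) * (u₁ - x₀) ∈ (k' : FI K) * M := smul_mem_FI _ s (fi_mono hkk' M hu₂)
    have a4 := fsub K _ (fadd K _ a1 a2) a3
    have e1 : (δ - ((s * π : 𝓞 K) : K) * x₀) * y₂ + (m : K) * ((s : K) * x₀) -
        (s : K) * (u₁ - x₀) = δ * y₂ - (s : K) * u₁ := by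
      rw [← hm', cmul]
      ring
    rw [e1] at a4
    exact a4
  have hlk' : l ⊔ k' = ⊤ := top_le_iff.1 (hlk ▸ sup_le_sup_left hkk' l)
  have h3 := mem_inf_mul hM h1 h2
  have h4 : l ⊓ k' = l * k' :=
    (Ideal.mul_eq_inf_of_isCoprime (Ideal.isCoprime_iff_sup_eq.mpr hlk')).symm
  rw [h4] at h3
  have h5 : ((τ * (s * s' - 1) : 𝓞 K) : K) * u₁ ∈
      ((l * H : Ideal (𝓞 K)) : FI K) * M := by
    rw [mul_comm l]
    exact smul_mem' (H.mul_mem_left _ (hkH hss)) hu₁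
  have h6 : ((τ * s' : 𝓞 K) : K) * (δ * y₂ - (s : K) * u₁) ∈
      ((l * H : Ideal (𝓞 K)) : FI K) * M := by
    have h7 := smul_mem' (I := r) (r.mul_mem_right s' hτ) h3
    refine fi_mono ?_ M h7
    calc r * (l * k') = l * (r * k') := by ring
      _ ≤ l * H := Ideal.mul_mono_right hrH
  have h8 := Submodule.neg_mem _ (fadd K _ h5 h6)
  have e2 : -(((τ * (s * s' - 1) : 𝓞 K) : K) * u₁ +
      ((τ * s' : 𝓞 K) : K) * (δ * y₂ - (s : K) * u₁)) =
      (τ : K) * (u₁ - (s' : K) * y₂ * δ) := by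
    rw [cmul, cmul, csub, cmul]
    have h9 : ((1 : 𝓞 K) : K) = 1 := map_one _
    rw [h9]
    ring
  rw [e2] at h8
  exact h8

/-- the transport, general form -/
theorem core {l r k e F k' H : Ideal (𝓞 K)} {M : FI K} {x₀ ρ δ : K} {π s s' X₀ Y₀ : 𝓞 K}
    {y₂ : K} (hFP : FP l k M x₀) (hPY : PY k e k' π y₂) (hG : Gn k (Mz K F) y₂) (hF0 : F ≠ ⊥)
    (hkr : k ≤ r) (hkH : k ≤ H) (hHr : H ≤ r) (hrH : r * k' ≤ H) (hHk' : H ≤ k')
    (hnil : ∀ T ∈ H, IsNilpotent (Ideal.Quotient.mk k T)) (her : e ≤ r)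
    (hρ : ρ ∈ M) (hρX : ρ - (X₀ : K) * x₀ ∈ (k : FI K) * M)
    (hδ : 2 * δ ∈ ((l * F : Ideal (𝓞 K)) : FI K) * M) (hss : s * s' - 1 ∈ k)
    (hδs : δ - ((s * π : 𝓞 K) : K) * x₀ ∈ (k : FI K) * M) (hY₀ : Y₀ - s' * X₀ ∈ r) :
    (∀ η : 𝓞 K ⧸ k → ℂ, MC η → ∀ x ∈ M,
      ∀ t ∈ ((l * H : Ideal (𝓞 K)) : FI K) * M,
      cm l r M ρ δ (cq k η M x₀) (x + t) = cm l r M ρ δ (cq k η M x₀) x) ∧
    (∀ η : 𝓞 K ⧸ k → ℂ, MC η → ∀ z ∈ Mz K F,
      ∀ t ∈ (H : FI K) * Mz K F,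
      PhZ k r F π Y₀ y₂ η (z + t) = PhZ k r F π Y₀ y₂ η z) ∧
    ∃ φ : K → ℂ, (∀ ξ, ‖φ ξ‖ ≤ 1) ∧ ∀ η : 𝓞 K ⧸ k → ℂ, MC η → ∀ X X₂ : Finset K,
      Rep K (l * H) M X → Rep K H (Mz K F) X₂ →
      ∀ ξ ∈ du K (((l * H : Ideal (𝓞 K)) : FI K) * M),
        ft K X (cm l r M ρ δ (cq k η M x₀)) ξ =
          φ ξ * ft K X₂ (PhZ k r F π Y₀ y₂ η) (δ * ξ) := by
  classical
  have hlk := hFP.lk.cop
  have hk := hFP.lk.k_ne
  have hM := hFP.M_ne
  have hx₀ : Gn k M x₀ := gn_k hFP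
  have hke := hPY.ke
  have he0 : e ≠ ⊥ := by
    rintro rfl
    exact hk (by rw [hke]; exact Ideal.bot_mul k')
  have hkk' : k ≤ k' := by rw [hke]; exact Ideal.mul_le_right
  have hπe : π ∈ e := by
    rw [hPY.span]
    exact Ideal.mem_sup_left (Ideal.mem_span_singleton_self π)
  have hδM : δ ∈ M := half_mem hFP.ev hδ
  have hMz : Mz K F ≠ 0 := mz_ne hF0
  obtain ⟨q1, -, -⟩ : _ ∧ _ ∧ _ := Pool.Agent.H29.THC.pf_CQ K k (fun _ => 0) M x₀ hk hM hx₀
  clear q1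
  have q1 : ∀ (η : 𝓞 K ⧸ k → ℂ) (a : 𝓞 K) (x : K), x - (a : K) * x₀ ∈ (k : FI K) * M →
      cq k η M x₀ x = η (Ideal.Quotient.mk k a) := fun η =>
    (Pool.Agent.H29.THC.pf_CQ K k η M x₀ hk hM hx₀).1
  have q2 : ∀ (η : 𝓞 K ⧸ k → ℂ) (a : 𝓞 K) (x : K), x - (a : K) * y₂ ∈ (k : FI K) * Mz K F →
      cq k η (Mz K F) y₂ x = η (Ideal.Quotient.mk k a) := fun η =>
    (Pool.Agent.H29.THC.pf_CQ K k η (Mz K F) y₂ hk hMz hG).1
  -- the values on `M`
  have hval : ∀ (η : 𝓞 K ⧸ k → ℂ) (X : 𝓞 K) (x : K), x - (X : K) * x₀ ∈ (k : FI K) * M →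
      cq k η M x₀ (x + δ) * (starRingEnd ℂ) (cq k η M x₀ (x - δ)) =
        η (Ideal.Quotient.mk k X + Ideal.Quotient.mk k (s * π)) *
          (starRingEnd ℂ) (η (Ideal.Quotient.mk k X - Ideal.Quotient.mk k (s * π))) := by
    intro η X x hX
    have h1 : x + δ - ((X + s * π : 𝓞 K) : K) * x₀ ∈ (k : FI K) * M := by
      have h2 := fadd K _ hX hδs
      have e1 : x - (X : K) * x₀ + (δ - ((s * π : 𝓞 K) : K) * x₀) =
          x + δ - ((X + s * π : 𝓞 K) : K) * x₀ := by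
        rw [cadd]; ring
      rw [e1] at h2
      exact h2
    have h3 : x - δ - ((X - s * π : 𝓞 K) : K) * x₀ ∈ (k : FI K) * M := by
      have h2 := fsub K _ hX hδs
      have e1 : x - (X : K) * x₀ - (δ - ((s * π : 𝓞 K) : K) * x₀) =
          x - δ - ((X - s * π : 𝓞 K) : K) * x₀ := by
        rw [csub]; ring
      rw [e1] at h2
      exact h2
    rw [q1 η _ _ h1, q1 η _ _ h3, map_add, map_sub]
  have hsπe : s * π ∈ e := e.mul_mem_left _ hπe
  have hpT : ∀ a ∈ e, ∀ T ∈ H, Ideal.Quotient.mk k a * Ideal.Quotient.mk k T = 0 := by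
    intro a ha T hT
    rw [← map_mul, Ideal.Quotient.eq_zero_iff_mem, hke]
    exact Ideal.mul_mem_mul ha (hHk' hT)
  -- (a)
  have hA : ∀ η : 𝓞 K ⧸ k → ℂ, MC η → ∀ x ∈ M,
      ∀ t ∈ ((l * H : Ideal (𝓞 K)) : FI K) * M,
      cm l r M ρ δ (cq k η M x₀) (x + t) = cm l r M ρ δ (cq k η M x₀) x := by
    intro η hη x hx t ht
    unfold cm
    rw [ci_per (Ideal.mul_mono_right hHr) ht]
    congr 1
    obtain ⟨X, -, hX⟩ := hx₀.gen x hx
    have htM : t ∈ M := fi_le _ M ht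
    obtain ⟨T, -, hT⟩ := hx₀.gen t htM
    have hT' : T ∈ H := by
      rw [← hx₀.iff T _ hkH]
      have h1 := fsub K _ (fi_mono (Ideal.mul_le_right : l * H ≤ H) M ht)
        (fi_mono hkH M hT)
      have e1 : t - (t - (T : K) * x₀) = (T : K) * x₀ := by ring
      rw [e1] at h1
      exact h1
    have hXT : x + t - ((X + T : 𝓞 K) : K) * x₀ ∈ (k : FI K) * M := by
      have h2 := fadd K _ hX hT
      have e1 : x - (X : K) * x₀ + (t - (T : K) * x₀) = x + t - ((X + T : 𝓞 K) : K) * x₀ := by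
        rw [cadd]; ring
      rw [e1] at h2
      exact h2
    rw [hval η _ _ hXT, hval η _ _ hX, map_add]
    exact values hη (hnil T hT') (hpT _ hsπe T hT')
  -- (b)
  have hB : ∀ η : 𝓞 K ⧸ k → ℂ, MC η → ∀ z ∈ Mz K F,
      ∀ t ∈ (H : FI K) * Mz K F,
      PhZ k r F π Y₀ y₂ η (z + t) = PhZ k r F π Y₀ y₂ η z := by
    intro η hη z hz t ht
    unfold PhZ
    rw [ci_per hHr ht]
    congr 1
    obtain ⟨Z, -, hZ⟩ := hG.gen z hz
    have htM : t ∈ Mz K F := fi_le _ _ ht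
    obtain ⟨T, -, hT⟩ := hG.gen t htM
    have hT' : T ∈ H := by
      rw [← hG.iff T _ hkH]
      have h1 := fsub K _ ht (fi_mono hkH _ hT)
      have e1 : t - (t - (T : K) * y₂) = (T : K) * y₂ := by ring
      rw [e1] at h1
      exact h1
    have hZT : z + t - ((Z + T : 𝓞 K) : K) * y₂ ∈ (k : FI K) * Mz K F := by
      have h2 := fadd K _ hZ hT
      have e1 : z - (Z : K) * y₂ + (t - (T : K) * y₂) = z + t - ((Z + T : 𝓞 K) : K) * y₂ := by
        rw [cadd]; ring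
      rw [e1] at h2
      exact h2
    rw [q2 _ _ _ hZT, q2 _ _ _ hZ]
    rw [map_add]
    exact values hη (hnil T hT') (hpT _ hπe T hT')
  refine ⟨hA, hB, ?_⟩
  -- (c)
  obtain ⟨u₁, hu₁, hu₂⟩ := exists_u hlk hx₀.mem
  obtain ⟨ru1, ru2⟩ := rep_u (r := r) (H := H) hM hlk hkr hkH hx₀ hu₁ hu₂
  have hph := fun (τ : 𝓞 K) (hτ : τ ∈ r) => phase (r := r) (τ := τ) hM hlk hkk' hke he0 hF0 hkH
    hrH hx₀.mem
    hu₁ hu₂ hPY.gen.mem hG.mem hPY.dual hδ hδs hss hτ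
  have hrk0 : H ≠ ⊥ := fun h => hk (le_bot_iff.1 (h ▸ hkH))
  have hfin : Finite (𝓞 K ⧸ H) := Ideal.finiteQuotientOfFreeOfNeBot _ hrk0
  have : Fintype (𝓞 K ⧸ H) := Fintype.ofFinite _
  have hlf : ∀ c : 𝓞 K ⧸ H, ∃ τ : 𝓞 K, c ∈ r.map (Ideal.Quotient.mk H) →
      τ ∈ r ∧ Ideal.Quotient.mk H τ = c := by
    intro c
    by_cases h : c ∈ r.map (Ideal.Quotient.mk H)
    · obtain ⟨τ, h1, h2⟩ :=
        (Ideal.mem_map_iff_of_surjective _ Ideal.Quotient.mk_surjective).mp h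
      exact ⟨τ, fun _ => ⟨h1, h2⟩⟩
    · exact ⟨0, fun h' => absurd h' h⟩
  choose lf hlf using hlf
  set T : Finset (𝓞 K ⧸ H) :=
    Finset.univ.filter fun c => c ∈ r.map (Ideal.Quotient.mk H) with hT
  have hTm : ∀ c ∈ T, lf c ∈ r ∧ Ideal.Quotient.mk H (lf c) = c := by
    intro c hc
    rw [hT, Finset.mem_filter] at hc
    exact hlf c hc.2
  have hTex : ∀ τ ∈ r, ∃ c ∈ T, τ - lf c ∈ H := by
    intro τ hτ
    have h1 : Ideal.Quotient.mk H τ ∈ T := by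
      rw [hT, Finset.mem_filter]
      exact ⟨Finset.mem_univ _, Ideal.mem_map_of_mem _ hτ⟩
    refine ⟨_, h1, ?_⟩
    rw [← Ideal.Quotient.mk_eq_mk_iff_sub_mem]
    exact (hTm _ h1).2.symm
  have hTinj : ∀ c ∈ T, ∀ c' ∈ T, lf c - lf c' ∈ H → c = c' := by
    intro c hc c' hc' h
    rw [← (hTm c hc).2, ← (hTm c' hc').2, Ideal.Quotient.mk_eq_mk_iff_sub_mem]
    exact h
  -- the points
  set uu : 𝓞 K → K := fun τ => ρ + δ + (τ : K) * u₁ with huu
  set zz : 𝓞 K → K := fun τ => ((s' * (X₀ + s * π + τ) : 𝓞 K) : K) * y₂ with hzz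
  have huM : ∀ τ, uu τ ∈ M := fun τ =>
    fadd K _ (fadd K _ hρ hδM) (smul_mem_FI _ τ (fi_le _ _ hu₁))
  have hzM : ∀ τ, zz τ ∈ Mz K F := fun τ => smul_mem_FI _ _ hG.mem
  have hYr : ∀ τ ∈ r, s' * (X₀ + s * π + τ) - Y₀ ∈ r := by
    intro τ hτ
    have e1 : s' * (X₀ + s * π + τ) - Y₀ = -(Y₀ - s' * X₀) + s' * (s * π) + s' * τ := by ring
    rw [e1]
    exact r.add_mem (r.add_mem (r.neg_mem hY₀) (r.mul_mem_left _ (her hsπe)))
      (r.mul_mem_left _ hτ)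
  refine ⟨fun ξ => eps K ((uu 0 - zz 0 * δ) * ξ), fun ξ => (eps_norm _).le, ?_⟩
  intro η hη X X₂ hX hX₂ ξ hξ
  have hL0 : ((l * H : Ideal (𝓞 K)) : FI K) * M ≠ 0 :=
    mul_ne_zero (FractionalIdeal.coeIdeal_ne_zero.2 (mul_ne_zero hFP.lk.l_ne hrk0)) hM
  have hf : ft K X (cm l r M ρ δ (cq k η M x₀)) ξ =
      ∑ x ∈ X, cm l r M ρ δ (cq k η M x₀) x * eps K (x * ξ) := rfl
  have hg : ft K X₂ (PhZ k r F π Y₀ y₂ η) (δ * ξ) =
      ∑ z ∈ X₂, PhZ k r F π Y₀ y₂ η z * eps K (z * (δ * ξ)) := rfl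
  rw [hf, hg]
  have h1 := sum_rep hX (f := fun x => cm l r M ρ δ (cq k η M x₀) x * eps K (x * ξ)) (by
      intro x hx t ht
      beta_reduce
      rw [hA η hη x hx t ht, add_mul, eps_add, eps_of_mem hL0 ht hξ, mul_one])
    T (fun c => uu (lf c)) (fun c _ => huM _) (by
      intro c hc c' hc' h
      apply hTinj c hc c' hc'
      apply ru1
      have e1 : uu (lf c) - uu (lf c') = ((lf c - lf c' : 𝓞 K) : K) * u₁ := by
        rw [huu, csub]; ring
      beta_reduce at h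
      rw [e1] at h
      exact h) (by
      intro x hx hne
      have h2 : x - (ρ + δ) ∈ ((l * r : Ideal (𝓞 K)) : FI K) * M := by
        by_contra hc
        apply hne
        beta_reduce
        unfold cm ci
        rw [if_neg hc, zero_mul, zero_mul]
      obtain ⟨τ, hτ, hτ'⟩ := ru2 _ h2
      obtain ⟨c, hc, hc'⟩ := hTex τ hτ
      refine ⟨c, hc, ?_⟩
      have h3 : ((τ - lf c : 𝓞 K) : K) * u₁ ∈ ((l * H : Ideal (𝓞 K)) : FI K) * M := by
        rw [mul_comm l]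
        exact smul_mem' hc' hu₁
      have h4 := fadd K _ hτ' h3
      have e1 : x - (ρ + δ) - (τ : K) * u₁ + ((τ - lf c : 𝓞 K) : K) * u₁ = x - uu (lf c) := by
        rw [huu, csub]; ring
      rw [e1] at h4
      exact h4)
  have h2 := sum_rep hX₂ (f := fun z => PhZ k r F π Y₀ y₂ η z * eps K (z * (δ * ξ))) (by
      intro z hz t ht
      beta_reduce
      have h3 : t * δ ∈ ((l * H : Ideal (𝓞 K)) : FI K) * M := by
        rw [mul_comm t]
        exact mz_mul hF0 hδ ht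
      have e1 : (z + t) * (δ * ξ) = z * (δ * ξ) + t * δ * ξ := by ring
      rw [hB η hη z hz t ht, e1, eps_add, eps_of_mem hL0 h3 hξ, mul_one])
    T (fun c => zz (lf c)) (fun c _ => hzM _) (by
      intro c hc c' hc' h
      apply hTinj c hc c' hc'
      have e1 : zz (lf c) - zz (lf c') = ((s' * (lf c - lf c') : 𝓞 K) : K) * y₂ := by
        rw [hzz]
        beta_reduce
        rw [← sub_mul, ← csub]
        congr 2
        ring
      beta_reduce at h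
      rw [e1, hG.iff _ _ hkH] at h
      have e2 : lf c - lf c' = s * (s' * (lf c - lf c')) - (s * s' - 1) * (lf c - lf c') := by
        ring
      rw [e2]
      exact H.sub_mem (H.mul_mem_left _ h)
        (H.mul_mem_right _ (hkH hss))) (by
      intro z hz hne
      have h3 : z - (Y₀ : K) * y₂ ∈ (r : FI K) * Mz K F := by
        by_contra hc
        apply hne
        beta_reduce
        unfold PhZ ci
        rw [if_neg hc, zero_mul, zero_mul]
      obtain ⟨Z, -, hZ⟩ := hG.gen z hz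
      have h4 : Z - Y₀ ∈ r := by
        rw [← hG.iff _ r hkr]
        have h5 := fsub K _ h3 (fi_mono hkr _ hZ)
        have e1 : z - (Y₀ : K) * y₂ - (z - (Z : K) * y₂) = ((Z - Y₀ : 𝓞 K) : K) * y₂ := by
          rw [csub]; ring
        rw [e1] at h5
        exact h5
      have h5 : s * Z - X₀ - s * π ∈ r := by
        have e1 : s * Z - X₀ - s * π = s * (Z - Y₀) + s * (Y₀ - s' * X₀) + (s * s' - 1) * X₀ -
            s * π := by ring
        rw [e1]
        exact r.sub_mem (r.add_mem (r.add_mem (r.mul_mem_left _ h4) (r.mul_mem_left _ hY₀))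
          (r.mul_mem_right _ (hkr hss))) (her hsπe)
      obtain ⟨c, hc, hc'⟩ := hTex _ h5
      refine ⟨c, hc, ?_⟩
      have h6 : Z - s' * (X₀ + s * π + lf c) ∈ H := by
        have e1 : Z - s' * (X₀ + s * π + lf c) =
            s' * (s * Z - X₀ - s * π - lf c) - (s * s' - 1) * Z := by ring
        rw [e1]
        exact H.sub_mem (H.mul_mem_left _ hc')
          (H.mul_mem_right _ (hkH hss))
      have h7 := fadd K _ (fi_mono hkH _ hZ) ((hG.iff _ _ hkH).2 h6)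
      have e1 : z - (Z : K) * y₂ + ((Z - s' * (X₀ + s * π + lf c) : 𝓞 K) : K) * y₂ =
          z - zz (lf c) := by
        rw [hzz, csub]; ring
      rw [e1] at h7
      exact h7)
  rw [h1, h2, Finset.mul_sum]
  refine Finset.sum_congr rfl fun c hc => ?_
  obtain ⟨hcr, -⟩ := hTm c hc
  generalize lf c = τ at hcr ⊢
  -- termwise
  have v1 : cm l r M ρ δ (cq k η M x₀) (uu τ) =
      η (Ideal.Quotient.mk k (X₀ + s * π + τ) + Ideal.Quotient.mk k (s * π)) *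
        (starRingEnd ℂ) (η (Ideal.Quotient.mk k (X₀ + s * π + τ) -
          Ideal.Quotient.mk k (s * π))) := by
    unfold cm
    rw [hval η (X₀ + s * π + τ) (uu τ) (by
      have h3 := fadd K _ (fadd K _ hρX hδs) (smul_mem_FI _ τ hu₂)
      have e1 : ρ - (X₀ : K) * x₀ + (δ - ((s * π : 𝓞 K) : K) * x₀) + (τ : K) * (u₁ - x₀) =
          uu τ - ((X₀ + s * π + τ : 𝓞 K) : K) * x₀ := by
        rw [huu, cadd, cadd]; ring
      rw [e1] at h3
      exact h3)]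
    unfold ci
    rw [if_pos, one_mul]
    have e1 : uu τ - (ρ + δ) = (τ : K) * u₁ := by
      rw [huu]; ring
    rw [e1, mul_comm l]
    exact smul_mem' hcr hu₁
  have v2 : PhZ k r F π Y₀ y₂ η (zz τ) =
      η (Ideal.Quotient.mk k (s' * (X₀ + s * π + τ)) + Ideal.Quotient.mk k π) *
        (starRingEnd ℂ) (η (Ideal.Quotient.mk k (s' * (X₀ + s * π + τ)) -
          Ideal.Quotient.mk k π)) := by
    unfold PhZ
    rw [q2 _ (s' * (X₀ + s * π + τ)) (zz τ) (by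
      rw [hzz]
      beta_reduce
      rw [sub_self]
      exact Submodule.zero_mem _)]
    unfold ci
    rw [if_pos, one_mul]
    have e1 : zz τ - (Y₀ : K) * y₂ = ((s' * (X₀ + s * π + τ) - Y₀ : 𝓞 K) : K) * y₂ := by
      rw [hzz, csub]; ring
    rw [e1, hG.iff _ _ hkr]
    exact hYr τ hcr
  have v3 : η (Ideal.Quotient.mk k (X₀ + s * π + τ) + Ideal.Quotient.mk k (s * π)) *
        (starRingEnd ℂ) (η (Ideal.Quotient.mk k (X₀ + s * π + τ) -
          Ideal.Quotient.mk k (s * π))) =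
      η (Ideal.Quotient.mk k (s' * (X₀ + s * π + τ)) + Ideal.Quotient.mk k π) *
        (starRingEnd ℂ) (η (Ideal.Quotient.mk k (s' * (X₀ + s * π + τ)) -
          Ideal.Quotient.mk k π)) := by
    have hs1 : Ideal.Quotient.mk k s * Ideal.Quotient.mk k s' = 1 := by
      rw [← map_mul, ← map_one (Ideal.Quotient.mk k), Ideal.Quotient.mk_eq_mk_iff_sub_mem]
      exact hss
    have hsu : IsUnit (Ideal.Quotient.mk k s) := IsUnit.of_mul_eq_one _ hs1
    have hn : η (Ideal.Quotient.mk k s) * (starRingEnd ℂ) (η (Ideal.Quotient.mk k s)) = 1 := by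
      rw [Complex.mul_conj, Complex.normSq_eq_norm_sq, hη.unit _ hsu]
      norm_num
    have w1 : Ideal.Quotient.mk k (X₀ + s * π + τ) + Ideal.Quotient.mk k (s * π) =
        Ideal.Quotient.mk k s *
          (Ideal.Quotient.mk k (s' * (X₀ + s * π + τ)) + Ideal.Quotient.mk k π) := by
      rw [mul_add, map_mul (Ideal.Quotient.mk k) s', ← mul_assoc, hs1, one_mul,
        map_mul (Ideal.Quotient.mk k) s π]
    have w2 : Ideal.Quotient.mk k (X₀ + s * π + τ) - Ideal.Quotient.mk k (s * π) =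
        Ideal.Quotient.mk k s *
          (Ideal.Quotient.mk k (s' * (X₀ + s * π + τ)) - Ideal.Quotient.mk k π) := by
      rw [mul_sub, map_mul (Ideal.Quotient.mk k) s', ← mul_assoc, hs1, one_mul,
        map_mul (Ideal.Quotient.mk k) s π]
    rw [w1, w2, hη.mul, hη.mul, map_mul (starRingEnd ℂ)]
    linear_combination (η (Ideal.Quotient.mk k (s' * (X₀ + s * π + τ)) +
      Ideal.Quotient.mk k π) * (starRingEnd ℂ) (η (Ideal.Quotient.mk k
        (s' * (X₀ + s * π + τ)) - Ideal.Quotient.mk k π))) * hn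
  have v4 : eps K (uu τ * ξ) = eps K ((uu 0 - zz 0 * δ) * ξ) * eps K (zz τ * (δ * ξ)) := by
    have h3 := eps_of_mem hL0 (hph τ hcr) hξ
    have e1 : uu τ * ξ = (uu 0 - zz 0 * δ) * ξ + zz τ * (δ * ξ) +
        (τ : K) * (u₁ - (s' : K) * y₂ * δ) * ξ := by
      rw [huu, hzz]
      beta_reduce
      rw [cmul, cmul, cadd (X₀ + s * π) τ, cadd (X₀ + s * π) 0]
      have h9 : ((0 : 𝓞 K) : K) = 0 := map_zero _
      rw [h9]
      ring
    rw [e1, eps_add, eps_add, h3, mul_one]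
  beta_reduce
  rw [v1, v2, v3, v4]
  ring

theorem pf_TR : F_TR := by
  intro K _ _ l s' k e k' f M x₀ ρ δ π σ σ' X₀ Y₀ y₂ hFP hsk hke hPY hG hf hfl her hρ hρX hδ hσ
    hδσ hY₀
  have hk := hFP.lk.k_ne
  have hs0 : s' ≠ ⊥ := fun h => hk (by rw [h]; exact Ideal.bot_mul k)
  have hk0 : k ≠ ⊥ := fun h => hk (by rw [h]; exact Ideal.mul_bot s')
  have he0 : e ≠ ⊥ := by
    rintro rfl
    exact hk0 (by rw [hke]; exact Ideal.bot_mul k')
  have hkk' : k ≤ k' := by rw [hke]; exact Ideal.mul_le_right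
  have hkr : k ≤ k.radical := Ideal.le_radical
  refine core hFP hPY hG (mul_ne_zero he0 hf) (Ideal.mul_le_right.trans hkr) ?_ ?_ ?_ ?_ ?_ her hρ
    hρX hδ hσ hδσ hY₀
  · rw [mul_comm s' k]
    exact Ideal.mul_mono_left (le_inf hkr hkk')
  · exact Ideal.mul_le_left.trans inf_le_left
  · calc k.radical * (s' * k') = (k.radical * k') * s' := by ring
      _ ≤ (k.radical ⊓ k') * s' := Ideal.mul_mono_left Ideal.mul_le_inf
  · rw [mul_comm s' k']
    exact Ideal.mul_mono_left inf_le_right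
  · intro T hT
    apply mk_nil
    have h1 : T ∈ k.radical := (Ideal.mul_le_left.trans inf_le_left) hT
    have h2 : T ∈ s' := Ideal.mul_le_right hT
    obtain ⟨n, hn⟩ := h1
    refine ⟨n + 1, ?_⟩
    rw [pow_succ']
    exact Ideal.mul_mem_mul h2 hn

end Pool.Agent.H56.DF.TR
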